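import Mathlib

/-!
# The class of mappings with `A`-parametric representation on the Euclidean ball of `ℂ²`
-/

set_option autoImplicit false

open MeasureTheory Filter Topology Set

namespace Pool.Agent.Q72.Ext

/-- `ℂ²` with the Euclidean norm. -/
abbrev E : Type := EuclideanSpace ℂ (Fin 2)

/-- The open unit ball. -/
def B : Set E := Metric.ball (0 : E) 1

/-- `e^{tA} w` for `A = diag(lam, 1)`. -/
noncomputable def expA (lam t : ℝ) (w : E) : E :=
  WithLp.toLp 2 ![(Real.exp (lam * t) : ℂ) * w 0, (Real.exp t : ℂ) * w 1]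

/-- The linear map `A = diag(lam, 1)`, that is `A z = z₁ (lam, 0) + z₂ (0, 1)`. -/
noncomputable def A (lam : ℝ) : E →L[ℂ] E :=
  (EuclideanSpace.proj (0 : Fin 2) : E →L[ℂ] ℂ).smulRight (WithLp.toLp 2 ![(lam : ℂ), 0] : E) +
    (EuclideanSpace.proj (1 : Fin 2) : E →L[ℂ] ℂ).smulRight (WithLp.toLp 2 ![0, 1] : E)

/-- The class `N_A`: holomorphic on the ball, `h(0) = 0`, `Dh(0) = A` and `Re ⟨h(z), z⟩ > 0`
for `z ≠ 0`. -/
structure IsNA (lam : ℝ) (h : E → E) : Prop where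
  holo : DifferentiableOn ℂ h B
  zero : h 0 = 0
  deriv : HasFDerivAt h (A lam) 0
  pos : ∀ z ∈ B, z ≠ 0 → 0 < (inner ℂ z (h z)).re

/-- Herglotz vector fields `h(z, t)` on `B × [0, ∞)`. -/
structure IsHerglotz (lam : ℝ) (h : E → ℝ → E) : Prop where
  mem : ∀ᵐ t ∂(volume.restrict (Ici (0 : ℝ))), IsNA lam fun z => h z t
  meas : ∀ z ∈ B, Measurable (h z)

/-- `v(z, t)` is the locally absolutely continuous solution of `∂_t v = -h(v, t)` a.e.,
`v(z, 0) = z`. -/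
structure IsSolution (h : E → ℝ → E) (v : E → ℝ → E) : Prop where
  init : ∀ z ∈ B, v z 0 = z
  mem : ∀ z ∈ B, ∀ t, 0 ≤ t → v z t ∈ B
  ac : ∀ z ∈ B, ∀ T, 0 ≤ T → AbsolutelyContinuousOnInterval (v z) 0 T
  ode : ∀ z ∈ B, ∀ᵐ t ∂(volume.restrict (Ioi (0 : ℝ))), HasDerivAt (v z) (-h (v z t) t) t

/-- `f` is a normalized holomorphic mapping of the ball with `A`-parametric representation. -/
structure HasParam (lam : ℝ) (f : E → E) : Prop where
  holo : DifferentiableOn ℂ f B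
  zero : f 0 = 0
  deriv : HasFDerivAt f (ContinuousLinearMap.id ℂ E) 0
  repr : ∃ h v : E → ℝ → E, IsHerglotz lam h ∧ IsSolution h v ∧
    TendstoLocallyUniformlyOn (fun t z => expA lam t (v z t)) f atTop B

/-- `S_A^0(B)`, a set of mappings from the ball to `ℂ²`. -/
def S0 (lam : ℝ) : Set (B → E) := {f | ∃ g : E → E, HasParam lam g ∧ ∀ z : B, f z = g z}

/-- The mapping `F(z) = (z₁ + a₀ z₂² / (2 - lam), z₂)`. -/
noncomputable def F (lam a0 : ℝ) (z : E) : E :=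
  WithLp.toLp 2 ![z 0 + ((a0 / (2 - lam) : ℝ) : ℂ) * z 1 ^ 2, z 1]

/-- The set whose greatest element is `a₀`. -/
def admissible (lam : ℝ) : Set ℝ :=
  {a | 0 < a ∧ ∀ x y : ℝ, 0 ≤ x → 0 ≤ y → x ^ 2 + y ^ 2 ≤ 1 →
    0 ≤ lam * x ^ 2 + y ^ 2 - a * x * y ^ 2}

end Pool.Agent.Q72.Ext
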