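import Mathlib

set_option autoImplicit false

open Set

namespace Pool.Agent.Q72.Ext

/-- the critical point -/
theorem exists_x0 (lam : ℝ) (h1 : 1 ≤ lam) :
    ∃ x : ℝ, 0 < x ∧ x < 1 ∧ (lam - 1) * x ^ 4 + (lam + 2) * x ^ 2 - 1 = 0 := by
  have hc : ContinuousOn (fun x : ℝ => (lam - 1) * x ^ 4 + (lam + 2) * x ^ 2 - 1) (Icc 0 1) := by
    fun_prop
  have := intermediate_value_Icc (show (0:ℝ) ≤ 1 by norm_num) hc
  have h0 : (0:ℝ) ∈ Icc ((lam - 1) * (0:ℝ) ^ 4 + (lam + 2) * 0 ^ 2 - 1)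
      ((lam - 1) * 1 ^ 4 + (lam + 2) * 1 ^ 2 - 1) := by
    constructor <;> linarith
  obtain ⟨x, hx, hx0⟩ := this h0
  refine ⟨x, ?_, ?_, hx0⟩
  · rcases lt_or_eq_of_le hx.1 with h | h
    · exact h
    · exfalso
      rw [← h] at hx0
      norm_num at hx0
  · rcases lt_or_eq_of_le hx.2 with h | h
    · exact h
    · exfalso
      rw [h] at hx0
      norm_num at hx0
      linarith

/-- data of the extremal problem -/
structure Dat (lam x0 a0 : ℝ) : Prop where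
  h1 : 1 ≤ lam
  h2 : lam < 2
  x0pos : 0 < x0
  x0lt : x0 < 1
  crit : (lam - 1) * x0 ^ 4 + (lam + 2) * x0 ^ 2 - 1 = 0
  ha : a0 * (x0 * (1 + x0 ^ 2)) = 2

theorem Dat.apos {lam x0 a0 : ℝ} (D : Dat lam x0 a0) : 0 < a0 := by
  have h := D.ha
  have h3 : 0 < x0 * (1 + x0 ^ 2) := by have := D.x0pos; positivity
  by_contra hcon
  push Not at hcon
  nlinarith

/-- the key identity -/
theorem Dat.key {lam x0 a0 : ℝ} (D : Dat lam x0 a0) (x s : ℝ) :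
    s * (lam * x ^ 2 + (s ^ 2 - x ^ 2)) - a0 * x * (s ^ 2 - x ^ 2) =
      a0 * (x - x0 * s) ^ 2 * (x + (1 + x0 ^ 2) / (2 * x0) * s) := by
  have hx := D.x0pos
  have hx' : x0 ≠ 0 := hx.ne'
  have ha : a0 = 2 / (x0 * (1 + x0 ^ 2)) := by
    rw [eq_div_iff (by positivity)]; exact D.ha
  have hl : lam = 1 / x0 ^ 2 - 4 / (1 + x0 ^ 2) + 1 := by
    have := D.crit
    field_simp
    nlinarith
  rw [ha, hl]
  have : 1 + x0 ^ 2 ≠ 0 := by positivity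
  field_simp
  ring

/-- the main real inequality -/
theorem Dat.ineq {lam x0 a0 : ℝ} (D : Dat lam x0 a0) :
    ∃ κ : ℝ, 0 < κ ∧ ∀ x y s r : ℝ, 0 ≤ x → 0 ≤ y → 0 ≤ s → s ≤ 1 → x ^ 2 + y ^ 2 = s ^ 2 →
      r ≤ x * y ^ 2 →
      (1 - s) * s ^ 2 / 2 + κ * (((1 - x0 ^ 2) * x - x0 * y ^ 2) ^ 2 +
        2 * (x0 * (1 - x0 ^ 2)) * (x * y ^ 2 - r)) ≤
        lam * x ^ 2 + y ^ 2 - a0 * r := by
  have hx := D.x0pos
  have hx1 := D.x0lt
  have ha := D.apos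
  set b : ℝ := (1 + x0 ^ 2) / (2 * x0) with hb
  have hb0 : 0 < b := by positivity
  clear_value b
  set m0 : ℝ := x0 * (1 - x0 ^ 2) with hm0
  have hm00 : 0 < m0 := by
    have : 0 < 1 - x0 ^ 2 := by nlinarith
    positivity
  set κ : ℝ := min (1 / 20) (min (a0 * b / 8) (a0 / (2 * m0))) with hκ
  have hκ1 : κ ≤ 1 / 20 := min_le_left _ _
  have hκ2 : κ ≤ a0 * b / 8 := (min_le_right _ _).trans (min_le_left _ _)
  have hκ3 : κ ≤ a0 / (2 * m0) := (min_le_right _ _).trans (min_le_right _ _)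
  have hκ0 : 0 < κ := by
    rw [hκ]
    exact lt_min (by norm_num) (lt_min (by positivity) (by positivity))
  clear_value κ
  refine ⟨κ, hκ0, ?_⟩
  intro x y s r hx0 hy0 hs0 hs1 hsum hc
  have hy : y ^ 2 = s ^ 2 - x ^ 2 := by linarith
  have hxs : x ≤ s := by
    by_contra hcon
    push Not at hcon
    nlinarith [sq_nonneg y]
  have key := D.key x s
  rw [← hb] at key
  -- decomposition
  have hdec : lam * x ^ 2 + y ^ 2 - a0 * r =
      (1 - s) * (lam * x ^ 2 + y ^ 2) + a0 * (x - x0 * s) ^ 2 * (x + b * s) +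
        a0 * (x * y ^ 2 - r) := by
    rw [← key, hy]; ring
  rw [hdec]
  have hlam : s ^ 2 ≤ lam * x ^ 2 + y ^ 2 := by
    have := D.h1
    nlinarith [mul_nonneg (sub_nonneg.2 this) (sq_nonneg x)]
  have ht1 : (1 - s) * s ^ 2 ≤ (1 - s) * (lam * x ^ 2 + y ^ 2) :=
    mul_le_mul_of_nonneg_left hlam (by linarith)
  -- phase
  have hph : κ * (2 * m0 * (x * y ^ 2 - r)) ≤ a0 * (x * y ^ 2 - r) := by
    have h3 : κ * (2 * m0) ≤ a0 := by
      rw [le_div_iff₀ (by positivity)] at hκ3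
      exact hκ3
    have h4 : 0 ≤ x * y ^ 2 - r := by linarith
    calc κ * (2 * m0 * (x * y ^ 2 - r)) = κ * (2 * m0) * (x * y ^ 2 - r) := by ring
      _ ≤ _ := mul_le_mul_of_nonneg_right h3 h4
  -- the square
  set d := x - x0 * s with hd
  have hid : (1 - x0 ^ 2) * x - x0 * y ^ 2 = d * (1 + x0 * x) + (1 - s) * (x0 * (s - x0 * x)) := by
    rw [hy, hd]; ring
  have hd1 : d ^ 2 ≤ s ^ 2 := by
    have h61 := mul_le_of_le_one_left hs0 hx1.le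
    have h62 : 0 ≤ x0 * s := by positivity
    apply sq_le_sq'
    · rw [hd]; linarith
    · rw [hd]; linarith
  have hA : (d * (1 + x0 * x)) ^ 2 ≤ 4 * d ^ 2 := by
    have h5 : 0 ≤ 1 + x0 * x := by positivity
    have h6 : 1 + x0 * x ≤ 2 := by
      have := mul_le_of_le_one_left hx0 hx1.le
      linarith
    have : (1 + x0 * x) ^ 2 ≤ 4 := by nlinarith
    calc (d * (1 + x0 * x)) ^ 2 = d ^ 2 * (1 + x0 * x) ^ 2 := by ring
      _ ≤ d ^ 2 * 4 := mul_le_mul_of_nonneg_left this (sq_nonneg d)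
      _ = _ := by ring
  have hBq : ((1 - s) * (x0 * (s - x0 * x))) ^ 2 ≤ (1 - s) * s ^ 2 := by
    have h5 : 0 ≤ s - x0 * x := by
      have := mul_le_of_le_one_left hx0 hx1.le
      linarith
    have h6 : x0 * (s - x0 * x) ≤ s := by
      have h61 := mul_le_of_le_one_left hs0 hx1.le
      have h62 : 0 ≤ x0 * (x0 * x) := by positivity
      linarith
    have h7 : (x0 * (s - x0 * x)) ^ 2 ≤ s ^ 2 := by
      apply sq_le_sq' _ h6
      have : 0 ≤ x0 * (s - x0 * x) := by positivity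
      linarith
    have h8 : (1 - s) ^ 2 ≤ (1 - s) := by nlinarith
    calc ((1 - s) * (x0 * (s - x0 * x))) ^ 2 = (1 - s) ^ 2 * (x0 * (s - x0 * x)) ^ 2 := by ring
      _ ≤ (1 - s) * s ^ 2 := by
        apply mul_le_mul h8 h7 (sq_nonneg _) (by linarith)
  have hsq : ((1 - x0 ^ 2) * x - x0 * y ^ 2) ^ 2 ≤ 8 * d ^ 2 + 2 * ((1 - s) * s ^ 2) := by
    rw [hid]
    have h8 := sq_nonneg (d * (1 + x0 * x) - (1 - s) * (x0 * (s - x0 * x)))
    linarith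
  have hd2 : d ^ 2 ≤ (1 - s) * s ^ 2 + s * d ^ 2 := by
    have := mul_le_mul_of_nonneg_left hd1 (show 0 ≤ 1 - s by linarith)
    linarith
  have hd3 : κ * (8 * (s * d ^ 2)) ≤ a0 * d ^ 2 * (x + b * s) := by
    have h5 : 0 ≤ s * d ^ 2 := by positivity
    have h6 : κ * 8 ≤ a0 * b := by linarith
    have h7 : 0 ≤ a0 * d ^ 2 * x := by positivity
    have h8 := mul_le_mul_of_nonneg_right h6 h5
    linarith
  have h9 : κ * ((1 - x0 ^ 2) * x - x0 * y ^ 2) ^ 2 ≤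
      κ * (8 * ((1 - s) * s ^ 2 + s * d ^ 2) + 2 * ((1 - s) * s ^ 2)) := by
    apply mul_le_mul_of_nonneg_left _ hκ0.le
    linarith
  have h10 : 0 ≤ (1 - s) * s ^ 2 := mul_nonneg (by linarith) (sq_nonneg s)
  have h11 : κ * (10 * ((1 - s) * s ^ 2)) ≤ (1 - s) * s ^ 2 / 2 := by
    have := mul_le_mul_of_nonneg_right hκ1 h10
    linarith
  have h12 : κ * (((1 - x0 ^ 2) * x - x0 * y ^ 2) ^ 2 +
        2 * (x0 * (1 - x0 ^ 2)) * (x * y ^ 2 - r)) =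
      κ * ((1 - x0 ^ 2) * x - x0 * y ^ 2) ^ 2 + κ * (2 * m0 * (x * y ^ 2 - r)) := by
    rw [hm0]; ring
  rw [h12]
  linarith

theorem Dat.greatest {lam x0 a0 : ℝ} (D : Dat lam x0 a0) :
    IsGreatest {a : ℝ | 0 < a ∧ ∀ x y : ℝ, 0 ≤ x → 0 ≤ y → x ^ 2 + y ^ 2 ≤ 1 →
      0 ≤ lam * x ^ 2 + y ^ 2 - a * x * y ^ 2} a0 := by
  obtain ⟨κ, hκ, hin⟩ := D.ineq
  have hx := D.x0pos
  have hx1 := D.x0lt
  have hm : 0 < 1 - x0 ^ 2 := by nlinarith
  constructor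
  · refine ⟨D.apos, ?_⟩
    intro x y hx0 hy0 hxy
    have h := hin x y (Real.sqrt (x ^ 2 + y ^ 2)) (x * y ^ 2) hx0 hy0 (Real.sqrt_nonneg _)
      (by rw [Real.sqrt_le_one]; exact hxy) (by rw [Real.sq_sqrt (by positivity)]) le_rfl
    have hs : Real.sqrt (x ^ 2 + y ^ 2) ≤ 1 := by rw [Real.sqrt_le_one]; exact hxy
    have h3 : 0 ≤ (1 - Real.sqrt (x ^ 2 + y ^ 2)) * Real.sqrt (x ^ 2 + y ^ 2) ^ 2 / 2 := by
      have : 0 ≤ 1 - Real.sqrt (x ^ 2 + y ^ 2) := by linarith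
      positivity
    have h4 : 0 ≤ κ * (((1 - x0 ^ 2) * x - x0 * y ^ 2) ^ 2 +
        2 * (x0 * (1 - x0 ^ 2)) * (x * y ^ 2 - x * y ^ 2)) := by
      rw [sub_self, mul_zero, add_zero]; positivity
    linarith
  · rintro a ⟨ha, hadm⟩
    have hy := hadm x0 (Real.sqrt (1 - x0 ^ 2)) hx.le (Real.sqrt_nonneg _)
      (by rw [Real.sq_sqrt hm.le]; linarith)
    rw [Real.sq_sqrt hm.le] at hy
    have key := D.key x0 1
    have h5 : lam * x0 ^ 2 + (1 - x0 ^ 2) - a0 * x0 * (1 - x0 ^ 2) = 0 := by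
      have : a0 * (x0 - x0 * 1) ^ 2 * (x0 + (1 + x0 ^ 2) / (2 * x0) * 1) = 0 := by ring
      rw [this] at key
      linarith
    have h6 : 0 ≤ (a0 - a) * (x0 * (1 - x0 ^ 2)) := by nlinarith
    by_contra hcon
    push Not at hcon
    have : (a0 - a) * (x0 * (1 - x0 ^ 2)) < 0 :=
      mul_neg_of_neg_of_pos (by linarith) (by positivity)
    linarith

theorem exists_dat (lam : ℝ) (h1 : 1 ≤ lam) (h2 : lam < 2) : ∃ x0 a0, Dat lam x0 a0 := by
  obtain ⟨x0, hx, hx1, hcrit⟩ := exists_x0 lam h1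
  refine ⟨x0, 2 / (x0 * (1 + x0 ^ 2)), h1, h2, hx, hx1, hcrit, ?_⟩
  field_simp

end Pool.Agent.Q72.Ext
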