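import Pool.Agent.Q72.Ext.Defs
import Pool.Agent.Q72.Ext.Real

set_option autoImplicit false

open MeasureTheory Filter Topology Set Complex

namespace Pool.Agent.Q72.Ext

/-- parameters -/
structure Par (lam x0 a0 c m e κ : ℝ) : Prop where
  dat : Dat lam x0 a0
  hc : (2 - lam) * c = a0
  hm : m * (1 - x0 ^ 2) = x0
  hκ : 0 < κ
  ineq : ∀ x y s r : ℝ, 0 ≤ x → 0 ≤ y → 0 ≤ s → s ≤ 1 → x ^ 2 + y ^ 2 = s ^ 2 →
      r ≤ x * y ^ 2 →
      (1 - s) * s ^ 2 / 2 + κ * (((1 - x0 ^ 2) * x - x0 * y ^ 2) ^ 2 +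
        2 * (x0 * (1 - x0 ^ 2)) * (x * y ^ 2 - r)) ≤
        lam * x ^ 2 + y ^ 2 - a0 * r
  e1 : |e| * (3 * (4 * (1 + m) + 4 * (c + m) + 2) ^ 2) ≤ 1 / 2
  e2 : 2 * |e| * (2 * lam * (1 + m) + |6 * m - 3 * lam * m + 3 * a0|) ≤ κ * (1 - x0 ^ 2) ^ 2

section
variable {lam x0 a0 c m e κ : ℝ}

theorem Par.mpos (P : Par lam x0 a0 c m e κ) : 0 < m := by
  have h1 := P.dat.x0pos
  have h2 := P.dat.x0lt
  have h3 : 0 < 1 - x0 ^ 2 := by nlinarith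
  have h4 := P.hm
  by_contra hcon
  push Not at hcon
  nlinarith

theorem Par.cpos (P : Par lam x0 a0 c m e κ) : 0 < c := by
  have h1 := P.dat.apos
  have h2 := P.dat.h2
  have h4 := P.hc
  by_contra hcon
  push Not at hcon
  nlinarith

/-- the function `psi` -/
noncomputable def psi (m : ℝ) (z : E) : ℂ := z 0 - m * z 1 ^ 2

/-- first component of the vector field -/
noncomputable def h1 (lam a0 m e : ℝ) (z : E) : ℂ :=
  (lam * z 0 - a0 * z 1 ^ 2 + lam * e * psi m z ^ 3 + 6 * e * m * z 1 ^ 2 * psi m z ^ 2) /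
    (1 + 3 * e * psi m z ^ 2)

/-- the vector field -/
noncomputable def hf (lam a0 m e : ℝ) (z : E) : E :=
  WithLp.toLp 2 ![h1 lam a0 m e z, z 1]

/-- the mapping -/
noncomputable def G (c m e : ℝ) (z : E) : E :=
  WithLp.toLp 2 ![z 0 + c * z 1 ^ 2 + e * psi m z ^ 3, z 1]

theorem norm_sq_E (z : E) : ‖z‖ ^ 2 = ‖z 0‖ ^ 2 + ‖z 1‖ ^ 2 := by
  rw [EuclideanSpace.norm_sq_eq, Fin.sum_univ_two]

theorem norm_c0 (z : E) : ‖z 0‖ ≤ ‖z‖ := by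
  have := norm_sq_E z
  nlinarith [norm_nonneg (z 0), norm_nonneg (z 1), norm_nonneg z, sq_nonneg ‖z 1‖]

theorem norm_c1 (z : E) : ‖z 1‖ ≤ ‖z‖ := by
  have := norm_sq_E z
  nlinarith [norm_nonneg (z 0), norm_nonneg (z 1), norm_nonneg z, sq_nonneg ‖z 0‖]

theorem mem_B {z : E} : z ∈ B ↔ ‖z‖ < 1 := by
  unfold B; simp

theorem norm_psi (P : Par lam x0 a0 c m e κ) {z : E} (hz : z ∈ B) : ‖psi m z‖ ≤ 1 + m := by
  have hm := P.mpos
  rw [mem_B] at hz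
  have h0 := (norm_c0 z).trans hz.le
  have h1 := (norm_c1 z).trans hz.le
  unfold psi
  refine (norm_sub_le _ _).trans ?_
  rw [norm_mul, norm_pow, Complex.norm_real, Real.norm_of_nonneg hm.le]
  have : ‖z 1‖ ^ 2 ≤ 1 := pow_le_one₀ (norm_nonneg _) h1
  nlinarith

theorem Par.e3 (P : Par lam x0 a0 c m e κ) : |e| * (3 * (1 + m) ^ 2) ≤ 1 / 2 := by
  refine le_trans ?_ P.e1
  have hm := P.mpos
  have hc := P.cpos
  apply mul_le_mul_of_nonneg_left _ (abs_nonneg e)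
  have := pow_le_pow_left₀ (show 0 ≤ 1 + m by linarith)
    (show 1 + m ≤ 4 * (1 + m) + 4 * (c + m) + 2 by linarith) 2
  linarith

theorem norm_small (P : Par lam x0 a0 c m e κ) {z : E} (hz : z ∈ B) :
    ‖(3 * e * psi m z ^ 2 : ℂ)‖ ≤ 1 / 2 := by
  have hm := P.mpos
  rw [norm_mul, norm_mul, norm_pow, Complex.norm_real]
  have h2 := norm_psi P hz
  have h3 : ‖psi m z‖ ^ 2 ≤ (1 + m) ^ 2 := by gcongr
  calc ‖(3:ℂ)‖ * ‖e‖ * ‖psi m z‖ ^ 2 = |e| * (3 * ‖psi m z‖ ^ 2) := by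
        rw [Real.norm_eq_abs]; norm_num; ring
    _ ≤ |e| * (3 * (1 + m) ^ 2) := by gcongr
    _ ≤ _ := P.e3

theorem norm_den (P : Par lam x0 a0 c m e κ) {z : E} (hz : z ∈ B) :
    1 / 2 ≤ ‖(1 + 3 * e * psi m z ^ 2 : ℂ)‖ := by
  have h := norm_small P hz
  have h2 := norm_sub_norm_le (1 : ℂ) (-(3 * e * psi m z ^ 2 : ℂ))
  rw [norm_neg, sub_neg_eq_add, norm_one] at h2
  linarith

theorem den_ne (P : Par lam x0 a0 c m e κ) {z : E} (hz : z ∈ B) :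
    (1 + 3 * e * psi m z ^ 2 : ℂ) ≠ 0 := by
  intro h
  have := norm_den P hz
  rw [h, norm_zero] at this
  linarith

theorem h1_sub (P : Par lam x0 a0 c m e κ) {z : E} (hz : z ∈ B) :
    h1 lam a0 m e z - (lam * z 0 - a0 * z 1 ^ 2) =
      e * psi m z ^ 2 * (-2 * lam * psi m z + (6 * m - 3 * lam * m + 3 * a0) * z 1 ^ 2) /
        (1 + 3 * e * psi m z ^ 2) := by
  have hd := den_ne P hz
  unfold h1
  rw [eq_div_iff hd, sub_mul, div_mul_cancel₀ _ hd]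
  unfold psi
  ring

theorem norm_h1_sub (P : Par lam x0 a0 c m e κ) {z : E} (hz : z ∈ B) :
    ‖h1 lam a0 m e z - (lam * z 0 - a0 * z 1 ^ 2)‖ ≤ κ * (1 - x0 ^ 2) ^ 2 * ‖psi m z‖ ^ 2 := by
  have hm := P.mpos
  have hl := P.dat.h1
  rw [h1_sub P hz, norm_div, norm_mul, norm_mul, norm_pow, Complex.norm_real, Real.norm_eq_abs]
  have hd := norm_den P hz
  have hz' := mem_B.1 hz
  have h1 := (norm_c1 z).trans hz'.le
  have h12 : ‖z 1‖ ^ 2 ≤ 1 := pow_le_one₀ (norm_nonneg _) h1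
  have hp := norm_psi P hz
  have hK : ‖(-2 * lam * psi m z + (6 * m - 3 * lam * m + 3 * a0) * z 1 ^ 2 : ℂ)‖ ≤
      2 * lam * (1 + m) + |6 * m - 3 * lam * m + 3 * a0| := by
    refine (norm_add_le _ _).trans ?_
    have ha : ‖(-2 * lam * psi m z : ℂ)‖ ≤ 2 * lam * (1 + m) := by
      rw [norm_mul, norm_mul, norm_neg, Complex.norm_real, Real.norm_of_nonneg (by linarith)]
      norm_num
      gcongr
    have hb : ‖((6 * m - 3 * lam * m + 3 * a0) * z 1 ^ 2 : ℂ)‖ ≤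
        |6 * m - 3 * lam * m + 3 * a0| := by
      rw [norm_mul, norm_pow]
      have : ‖(6 * m - 3 * lam * m + 3 * a0 : ℂ)‖ = |6 * m - 3 * lam * m + 3 * a0| := by
        rw [← Real.norm_eq_abs, ← Complex.norm_real]
        push_cast
        rfl
      rw [this]
      exact mul_le_of_le_one_right (abs_nonneg _) h12
    linarith
  rw [div_le_iff₀ (by linarith)]
  have hpos : 0 ≤ κ * (1 - x0 ^ 2) ^ 2 * ‖psi m z‖ ^ 2 := by
    have := P.hκ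
    positivity
  have h5 : |e| * ‖psi m z‖ ^ 2 *
      ‖(-2 * lam * psi m z + (6 * m - 3 * lam * m + 3 * a0) * z 1 ^ 2 : ℂ)‖ ≤
      |e| * ‖psi m z‖ ^ 2 * (2 * lam * (1 + m) + |6 * m - 3 * lam * m + 3 * a0|) :=
    mul_le_mul_of_nonneg_left hK (by positivity)
  have h6 := mul_le_mul_of_nonneg_left P.e2 (sq_nonneg ‖psi m z‖)
  have h7 := mul_le_mul_of_nonneg_left hd hpos
  calc _ ≤ _ := h5
    _ = (‖psi m z‖ ^ 2 * (2 * |e| * (2 * lam * (1 + m) + |6 * m - 3 * lam * m + 3 * a0|))) / 2 := by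
      ring
    _ ≤ (‖psi m z‖ ^ 2 * (κ * (1 - x0 ^ 2) ^ 2)) / 2 := by linarith
    _ = κ * (1 - x0 ^ 2) ^ 2 * ‖psi m z‖ ^ 2 * (1 / 2) := by ring
    _ ≤ _ := h7

theorem inner_hf (z : E) : (inner ℂ z (hf lam a0 m e z)).re =
    (starRingEnd ℂ (z 0) * h1 lam a0 m e z).re + ‖z 1‖ ^ 2 := by
  rw [PiLp.inner_apply, Fin.sum_univ_two]
  simp only [hf, RCLike.inner_apply, Complex.add_re]
  congr 1
  · simp only [Matrix.cons_val_zero]
    rw [mul_comm]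
  · simp only [Matrix.cons_val_one, Matrix.cons_val_fin_one]
    rw [mul_comm, ← Complex.normSq_eq_conj_mul_self, Complex.ofReal_re, Complex.normSq_eq_norm_sq]

theorem main_lower (P : Par lam x0 a0 c m e κ) {z : E} (hz : z ∈ B) :
    (1 - ‖z‖) * ‖z‖ ^ 2 / 2 ≤ (inner ℂ z (hf lam a0 m e z)).re := by
  have hz' := mem_B.1 hz
  rw [inner_hf]
  have hx := P.dat.x0pos
  have hx1 := P.dat.x0lt
  have hm := P.mpos
  set r : ℝ := (starRingEnd ℂ (z 0) * z 1 ^ 2).re with hr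
  have hr1 : r ≤ ‖z 0‖ * ‖z 1‖ ^ 2 := by
    refine (Complex.re_le_norm _).trans ?_
    rw [norm_mul, norm_pow, RCLike.norm_conj]
  have hin := P.ineq ‖z 0‖ ‖z 1‖ ‖z‖ r (norm_nonneg _) (norm_nonneg _) (norm_nonneg _) hz'.le
    (norm_sq_E z).symm hr1
  have hpsi : ((1 - x0 ^ 2) * ‖z 0‖ - x0 * ‖z 1‖ ^ 2) ^ 2 +
        2 * (x0 * (1 - x0 ^ 2)) * (‖z 0‖ * ‖z 1‖ ^ 2 - r) = (1 - x0 ^ 2) ^ 2 * ‖psi m z‖ ^ 2 := by
    have h2 : ‖psi m z‖ ^ 2 = ‖z 0‖ ^ 2 + m ^ 2 * (‖z 1‖ ^ 2) ^ 2 - 2 * m * r := by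
      rw [← Complex.normSq_eq_norm_sq, ← Complex.normSq_eq_norm_sq, ← Complex.normSq_eq_norm_sq,
        hr]
      unfold psi
      simp only [Complex.normSq_apply, Complex.sub_re, Complex.sub_im, Complex.mul_re,
        Complex.mul_im, Complex.ofReal_re, Complex.ofReal_im, Complex.conj_re, Complex.conj_im,
        pow_two]
      ring
    rw [h2]
    have h3 := P.hm
    have h4 : (1 - x0 ^ 2) ^ 2 * (‖z 0‖ ^ 2 + m ^ 2 * (‖z 1‖ ^ 2) ^ 2 - 2 * m * r) =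
        (1 - x0 ^ 2) ^ 2 * ‖z 0‖ ^ 2 + (m * (1 - x0 ^ 2)) ^ 2 * (‖z 1‖ ^ 2) ^ 2 -
          2 * (m * (1 - x0 ^ 2)) * (1 - x0 ^ 2) * r := by ring
    rw [h4, h3]
    ring
  rw [hpsi] at hin
  have hsplit : (starRingEnd ℂ (z 0) * h1 lam a0 m e z).re =
      lam * ‖z 0‖ ^ 2 - a0 * r +
        (starRingEnd ℂ (z 0) * (h1 lam a0 m e z - (lam * z 0 - a0 * z 1 ^ 2))).re := by
    have h5 : starRingEnd ℂ (z 0) * h1 lam a0 m e z =
        (lam : ℂ) * (starRingEnd ℂ (z 0) * z 0) - (a0 : ℂ) * (starRingEnd ℂ (z 0) * z 1 ^ 2) +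
        starRingEnd ℂ (z 0) * (h1 lam a0 m e z - (lam * z 0 - a0 * z 1 ^ 2)) := by ring
    rw [h5, Complex.add_re, Complex.sub_re, Complex.re_ofReal_mul, Complex.re_ofReal_mul,
      ← Complex.normSq_eq_conj_mul_self, Complex.ofReal_re, Complex.normSq_eq_norm_sq]
  have hlow : -(κ * (1 - x0 ^ 2) ^ 2 * ‖psi m z‖ ^ 2) ≤
      (starRingEnd ℂ (z 0) * (h1 lam a0 m e z - (lam * z 0 - a0 * z 1 ^ 2))).re := by
    have h6 := Complex.abs_re_le_norm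
      (starRingEnd ℂ (z 0) * (h1 lam a0 m e z - (lam * z 0 - a0 * z 1 ^ 2)))
    rw [norm_mul, RCLike.norm_conj] at h6
    have h7 := norm_h1_sub P hz
    have h8 := (norm_c0 z).trans hz'.le
    have h9 : ‖z 0‖ * ‖h1 lam a0 m e z - (lam * z 0 - a0 * z 1 ^ 2)‖ ≤
        κ * (1 - x0 ^ 2) ^ 2 * ‖psi m z‖ ^ 2 :=
      (mul_le_of_le_one_left (norm_nonneg _) h8).trans h7
    have h10 := (abs_le.1 h6).1
    linarith
  rw [hsplit]
  linarith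

theorem hf_pos (P : Par lam x0 a0 c m e κ) {z : E} (hz : z ∈ B) (h0 : z ≠ 0) :
    0 < (inner ℂ z (hf lam a0 m e z)).re := by
  refine lt_of_lt_of_le ?_ (main_lower P hz)
  have h1 := mem_B.1 hz
  have h2 : 0 < ‖z‖ := norm_pos_iff.2 h0
  have : 0 < 1 - ‖z‖ := by linarith
  positivity

end

end Pool.Agent.Q72.Ext
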