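import Mathlib

set_option autoImplicit false

open Filter Topology Set Complex

namespace Pool.Agent.Q72.Ext

/-- the polynomial `u + e u³` -/
noncomputable def q (e : ℝ) (u : ℂ) : ℂ := u + e * u ^ 3

theorem q_approx {e R : ℝ} (he : |e| * (3 * R ^ 2) ≤ 1 / 2) {u w : ℂ} (hu : ‖u‖ ≤ R)
    (hw : ‖w‖ ≤ R) : ‖(q e u - q e w) - (u - w)‖ ≤ 1 / 2 * ‖u - w‖ := by
  have h1 : (q e u - q e w) - (u - w) = e * (u ^ 2 + u * w + w ^ 2) * (u - w) := by
    unfold q; ring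
  rw [h1, norm_mul, norm_mul, Complex.norm_real, Real.norm_eq_abs]
  apply mul_le_mul_of_nonneg_right _ (norm_nonneg _)
  refine le_trans ?_ he
  apply mul_le_mul_of_nonneg_left _ (abs_nonneg _)
  have hR : 0 ≤ R := (norm_nonneg _).trans hu
  calc ‖u ^ 2 + u * w + w ^ 2‖ ≤ ‖u‖ ^ 2 + ‖u‖ * ‖w‖ + ‖w‖ ^ 2 := by
        refine (norm_add_le _ _).trans ?_
        rw [norm_pow w]
        gcongr
        refine (norm_add_le _ _).trans ?_
        rw [norm_pow, norm_mul]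
    _ ≤ R ^ 2 + R * R + R ^ 2 := by gcongr
    _ = 3 * R ^ 2 := by ring

theorem q_expand {e R : ℝ} (he : |e| * (3 * R ^ 2) ≤ 1 / 2) {u w : ℂ} (hu : ‖u‖ ≤ R)
    (hw : ‖w‖ ≤ R) : ‖u - w‖ ≤ 2 * ‖q e u - q e w‖ := by
  have h1 := q_approx he hu hw
  have h2 : ‖u - w‖ ≤ ‖q e u - q e w‖ + ‖(q e u - q e w) - (u - w)‖ := by
    have : u - w = (q e u - q e w) - ((q e u - q e w) - (u - w)) := by ring
    conv_lhs => rw [this]
    exact norm_sub_le _ _
  linarith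

theorem q_zero (e : ℝ) : q e 0 = 0 := by unfold q; simp

theorem q_upper {e R : ℝ} (he : |e| * (3 * R ^ 2) ≤ 1 / 2) {u : ℂ} (hu : ‖u‖ ≤ R) :
    ‖q e u‖ ≤ 2 * ‖u‖ := by
  have h1 := q_approx he hu (w := 0) (by simpa using (norm_nonneg _).trans hu)
  rw [q_zero, sub_zero, sub_zero] at h1
  have h2 : ‖q e u‖ ≤ ‖q e u - u‖ + ‖u‖ := by
    have : q e u = (q e u - u) + u := by ring
    conv_lhs => rw [this]
    exact norm_add_le _ _
  linarith [norm_nonneg u]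

theorem q_surj {e R : ℝ} (hR : 0 ≤ R) (he : |e| * (3 * R ^ 2) ≤ 1 / 2) {w : ℂ}
    (hw : ‖w‖ ≤ R / 2) : ∃ u : ℂ, ‖u‖ ≤ 2 * ‖w‖ ∧ ‖u‖ ≤ R ∧ q e u = w := by
  have happ : ApproximatesLinearOn (q e) ((ContinuousLinearEquiv.refl ℂ ℂ : ℂ ≃L[ℂ] ℂ) : ℂ →L[ℂ] ℂ)
      (Metric.closedBall 0 R) (1 / 2) := by
    intro u hu v hv
    have := q_approx he (mem_closedBall_zero_iff.1 hu) (mem_closedBall_zero_iff.1 hv)
    simpa using this
  have hs := happ.surjOn_closedBall_of_nonlinearRightInverse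
    (ContinuousLinearEquiv.refl ℂ ℂ).toNonlinearRightInverse (b := 0) hR (le_refl _)
  rw [q_zero] at hs
  have hN : ((ContinuousLinearEquiv.refl ℂ ℂ).toNonlinearRightInverse.nnnorm : ℝ) = 1 := by
    have : (ContinuousLinearEquiv.refl ℂ ℂ).toNonlinearRightInverse.nnnorm =
      ‖((ContinuousLinearEquiv.refl ℂ ℂ).symm : ℂ →L[ℂ] ℂ)‖₊ := rfl
    rw [this]
    simp
  rw [hN] at hs
  have hw' : w ∈ Metric.closedBall (0 : ℂ) (((1 : ℝ)⁻¹ - ((1 / 2 : NNReal) : ℝ)) * R) := by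
    rw [mem_closedBall_zero_iff]
    refine hw.trans (le_of_eq ?_)
    push_cast
    ring
  obtain ⟨u, hu, hqu⟩ := hs hw'
  have hu' := mem_closedBall_zero_iff.1 hu
  refine ⟨u, ?_, hu', hqu⟩
  have := q_expand he hu' (w := 0) (by simpa using hR)
  rw [q_zero, sub_zero, sub_zero, hqu] at this
  exact this

theorem exists_inv {e R : ℝ} (hR : 0 ≤ R) (he : |e| * (3 * R ^ 2) ≤ 1 / 2) :
    ∃ g : ℂ → ℂ, (∀ w, ‖w‖ ≤ R / 2 → ‖g w‖ ≤ 2 * ‖w‖ ∧ ‖g w‖ ≤ R ∧ q e (g w) = w) ∧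
      (∀ u, ‖u‖ ≤ R → ‖q e u‖ ≤ R / 2 → g (q e u) = u) ∧
      ∀ w, ‖w‖ < R / 2 → HasDerivAt g ((1 + 3 * e * g w ^ 2)⁻¹) w := by
  classical
  have hex : ∀ w : ℂ, ∃ u : ℂ, ‖w‖ ≤ R / 2 → (‖u‖ ≤ 2 * ‖w‖ ∧ ‖u‖ ≤ R ∧ q e u = w) := by
    intro w
    by_cases hw : ‖w‖ ≤ R / 2
    · obtain ⟨u, hu⟩ := q_surj hR he hw
      exact ⟨u, fun _ => hu⟩
    · exact ⟨0, fun h => absurd h hw⟩
  choose g hg using hex
  refine ⟨g, hg, ?_, ?_⟩
  · intro u hu hqu
    have h1 := hg (q e u) hqu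
    have h2 := q_expand he h1.2.1 hu
    rw [h1.2.2, sub_self, norm_zero, mul_zero] at h2
    exact sub_eq_zero.1 (norm_le_zero_iff.1 h2)
  · intro w hw
    have hnear : ∀ᶠ y in 𝓝 w, ‖y‖ < R / 2 :=
      (continuous_norm.tendsto w).eventually_lt_const hw
    have hcont : ContinuousAt g w := by
      have hlip : ∀ᶠ y in 𝓝 w, dist (g y) (g w) ≤ 2 * dist y w := by
        filter_upwards [hnear] with y hy
        have h1 := hg y hy.le
        have h2 := hg w hw.le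
        have h3 := q_expand he h1.2.1 h2.2.1
        rw [h1.2.2, h2.2.2] at h3
        rw [dist_eq_norm, dist_eq_norm]
        exact h3
      rw [ContinuousAt, tendsto_iff_dist_tendsto_zero]
      apply squeeze_zero' (Eventually.of_forall fun _ => dist_nonneg) hlip
      have : Tendsto (fun y => 2 * dist y w) (𝓝 w) (𝓝 (2 * dist w w)) :=
        ((continuous_id.dist continuous_const).const_mul 2).tendsto w
      simpa using this
    have hq : HasDerivAt (q e) (1 + 3 * e * g w ^ 2) (g w) := by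
      have : HasDerivAt (fun u : ℂ => u + e * u ^ 3) (1 + e * (3 * g w ^ 2)) (g w) := by
        have h3 := (hasDerivAt_id' (g w)).fun_add ((hasDerivAt_pow 3 (g w)).const_mul (e : ℂ))
        exact h3.congr_deriv (by norm_num)
      refine this.congr_deriv ?_
      ring
    apply HasDerivAt.of_local_left_inverse hcont hq
    · intro h0
      have h4 : ‖(3 * e * g w ^ 2 : ℂ)‖ ≤ 1 / 2 := by
        rw [norm_mul, norm_mul, norm_pow, Complex.norm_real, Real.norm_eq_abs]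
        have h5 := (hg w hw.le).2.1
        have h6 : ‖g w‖ ^ 2 ≤ R ^ 2 := by gcongr
        calc ‖(3:ℂ)‖ * |e| * ‖g w‖ ^ 2 = |e| * (3 * ‖g w‖ ^ 2) := by norm_num; ring
          _ ≤ |e| * (3 * R ^ 2) := by gcongr
          _ ≤ _ := he
      have h7 : (3 * e * g w ^ 2 : ℂ) = -1 := by
        linear_combination h0
      rw [h7, norm_neg, norm_one] at h4
      norm_num at h4
    · filter_upwards [hnear] with y hy
      exact (hg y hy.le).2.2

end Pool.Agent.Q72.Ext
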