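import Pool.Agent.Q72.Ext.Field
import Pool.Agent.Q72.Ext.Inv

set_option autoImplicit false

open MeasureTheory Filter Topology Set Complex

namespace Pool.Agent.Q72.Ext

section
variable {lam x0 a0 c m e κ : ℝ}

theorem toLp_zero (a b : ℂ) : (WithLp.toLp 2 ![a, b] : E) 0 = a := rfl
theorem toLp_one (a b : ℂ) : (WithLp.toLp 2 ![a, b] : E) 1 = b := rfl

theorem ext_E {z w : E} (h0 : z 0 = w 0) (h1 : z 1 = w 1) : z = w := by
  ext i
  fin_cases i
  · exact h0
  · exact h1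

theorem A_zero (lam : ℝ) (z : E) : A lam z 0 = lam * z 0 := by
  unfold A
  simp [mul_comm]

theorem A_one (lam : ℝ) (z : E) : A lam z 1 = z 1 := by
  unfold A
  simp

theorem norm_le_add (z : E) : ‖z‖ ≤ ‖z 0‖ + ‖z 1‖ := by
  have h := norm_sq_E z
  have h1 := norm_nonneg (z 0)
  have h2 := norm_nonneg (z 1)
  apply le_of_sq_le_sq _ (by positivity)
  rw [h]
  nlinarith
  
theorem hasFDeriv_of_quad {f : E → E} {L : E →L[ℂ] E} (C : ℝ) (h0 : f 0 = 0)
    (h : ∀ z ∈ B, ‖f z - L z‖ ≤ C * ‖z‖ ^ 2) : HasFDerivAt f L 0 := by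
  rw [hasFDerivAt_iff_isLittleO_nhds_zero]
  have h1 : (fun z : E => f (0 + z) - f 0 - L z) =O[𝓝 0] fun z : E => ‖z‖ ^ 2 := by
    apply Asymptotics.IsBigO.of_bound C
    have hB : B ∈ 𝓝 (0 : E) := Metric.ball_mem_nhds _ one_pos
    filter_upwards [hB] with z hz
    rw [zero_add, h0, sub_zero, norm_pow, norm_norm]
    exact h z hz
  exact h1.trans_isLittleO (Asymptotics.isLittleO_norm_pow_id one_lt_two)

theorem norm_psi_le (P : Par lam x0 a0 c m e κ) {z : E} (hz : z ∈ B) :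
    ‖psi m z‖ ≤ (1 + m) * ‖z‖ := by
  have hm := P.mpos
  rw [mem_B] at hz
  have h0 := norm_c0 z
  have h1 := norm_c1 z
  unfold psi
  refine (norm_sub_le _ _).trans ?_
  rw [norm_mul, norm_pow, Complex.norm_real, Real.norm_of_nonneg hm.le]
  have h2 : ‖z 1‖ ^ 2 ≤ ‖z‖ := by
    have := norm_nonneg (z 1)
    nlinarith
  nlinarith

theorem hf_diff (P : Par lam x0 a0 c m e κ) : DifferentiableOn ℂ (hf lam a0 m e) B := by
  rw [differentiableOn_euclidean]
  intro i
  have hp0 : DifferentiableOn ℂ (fun z : E => z 0) B :=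
    (EuclideanSpace.proj (0 : Fin 2) : E →L[ℂ] ℂ).differentiable.differentiableOn
  have hp1 : DifferentiableOn ℂ (fun z : E => z 1) B :=
    (EuclideanSpace.proj (1 : Fin 2) : E →L[ℂ] ℂ).differentiable.differentiableOn
  have hps : DifferentiableOn ℂ (fun z : E => psi m z) B := by
    unfold psi
    exact hp0.sub ((differentiableOn_const _).mul (hp1.pow 2))
  fin_cases i
  · change DifferentiableOn ℂ (fun z => h1 lam a0 m e z) B
    unfold h1
    simp only [div_eq_mul_inv]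
    apply DifferentiableOn.fun_mul
    · exact (((((differentiableOn_const _).mul hp0).sub ((differentiableOn_const _).mul
        (hp1.pow 2))).add ((differentiableOn_const _).mul (hps.pow 3))).add
        (((differentiableOn_const _).mul (hp1.pow 2)).mul (hps.pow 2)))
    · apply DifferentiableOn.fun_inv
      · exact (differentiableOn_const _).add ((differentiableOn_const _).mul (hps.pow 2))
      · intro z hz
        exact den_ne P hz
  · exact hp1

theorem hf_zero : hf lam a0 m e 0 = 0 := by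
  apply ext_E
  · simp [hf, h1, psi]
  · simp [hf]

theorem hf_deriv (P : Par lam x0 a0 c m e κ) : HasFDerivAt (hf lam a0 m e) (A lam) 0 := by
  have hκ := P.hκ
  have ha := P.dat.apos
  apply hasFDeriv_of_quad (κ * (1 - x0 ^ 2) ^ 2 * (1 + m) ^ 2 + a0) hf_zero
  intro z hz
  refine (norm_le_add _).trans ?_
  have e0 : (hf lam a0 m e z - A lam z) 0 = (h1 lam a0 m e z - (lam * z 0 - a0 * z 1 ^ 2)) -
      a0 * z 1 ^ 2 := by
    rw [PiLp.sub_apply, A_zero, hf, toLp_zero]; ring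
  have e1 : (hf lam a0 m e z - A lam z) 1 = 0 := by
    rw [PiLp.sub_apply, A_one, hf, toLp_one, sub_self]
  rw [e0, e1, norm_zero, add_zero]
  refine (norm_sub_le _ _).trans ?_
  have h3 := norm_h1_sub P hz
  have h4 := norm_psi_le P hz
  have h5 : ‖psi m z‖ ^ 2 ≤ ((1 + m) * ‖z‖) ^ 2 := by gcongr
  have h6 : ‖(a0 * z 1 ^ 2 : ℂ)‖ ≤ a0 * ‖z‖ ^ 2 := by
    rw [norm_mul, norm_pow, Complex.norm_real, Real.norm_of_nonneg ha.le]
    have := norm_c1 z
    gcongr
  have h7 := mul_le_mul_of_nonneg_left h5 (show 0 ≤ κ * (1 - x0 ^ 2) ^ 2 by positivity)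
  calc _ ≤ κ * (1 - x0 ^ 2) ^ 2 * ((1 + m) * ‖z‖) ^ 2 + a0 * ‖z‖ ^ 2 :=
        add_le_add (h3.trans h7) h6
    _ = _ := by ring

theorem isNA (P : Par lam x0 a0 c m e κ) : IsNA lam (hf lam a0 m e) where
  holo := hf_diff P
  zero := hf_zero
  deriv := hf_deriv P
  pos := fun _ hz h0 => hf_pos P hz h0

theorem G_diff : DifferentiableOn ℂ (G c m e) B := by
  rw [differentiableOn_euclidean]
  intro i
  have hp0 : DifferentiableOn ℂ (fun z : E => z 0) B :=
    (EuclideanSpace.proj (0 : Fin 2) : E →L[ℂ] ℂ).differentiable.differentiableOn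
  have hp1 : DifferentiableOn ℂ (fun z : E => z 1) B :=
    (EuclideanSpace.proj (1 : Fin 2) : E →L[ℂ] ℂ).differentiable.differentiableOn
  have hps : DifferentiableOn ℂ (fun z : E => psi m z) B := by
    unfold psi
    exact hp0.sub ((differentiableOn_const _).mul (hp1.pow 2))
  fin_cases i
  · change DifferentiableOn ℂ (fun z : E => z 0 + c * z 1 ^ 2 + e * psi m z ^ 3) B
    exact (hp0.add ((differentiableOn_const _).mul (hp1.pow 2))).add
      ((differentiableOn_const _).mul (hps.pow 3))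
  · exact hp1

theorem G_zero : G c m e 0 = 0 := by
  apply ext_E
  · simp [G, psi]
  · simp [G]

theorem G_deriv (P : Par lam x0 a0 c m e κ) :
    HasFDerivAt (G c m e) (ContinuousLinearMap.id ℂ E) 0 := by
  have hc := P.cpos
  have hm := P.mpos
  apply hasFDeriv_of_quad (c + |e| * (1 + m) ^ 3) G_zero
  intro z hz
  refine (norm_le_add _).trans ?_
  have e0 : (G c m e z - ContinuousLinearMap.id ℂ E z) 0 = c * z 1 ^ 2 + e * psi m z ^ 3 := by
    rw [PiLp.sub_apply, G, toLp_zero, ContinuousLinearMap.id_apply]; ring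
  have e1 : (G c m e z - ContinuousLinearMap.id ℂ E z) 1 = 0 := by
    rw [PiLp.sub_apply, G, toLp_one, ContinuousLinearMap.id_apply, sub_self]
  rw [e0, e1, norm_zero, add_zero]
  refine (norm_add_le _ _).trans ?_
  have h4 := norm_psi_le P hz
  have hz' := mem_B.1 hz
  have h5 : ‖psi m z‖ ^ 3 ≤ ((1 + m) * ‖z‖) ^ 3 := by gcongr
  have h6 : ‖(c * z 1 ^ 2 : ℂ)‖ ≤ c * ‖z‖ ^ 2 := by
    rw [norm_mul, norm_pow, Complex.norm_real, Real.norm_of_nonneg hc.le]
    have := norm_c1 z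
    gcongr
  have h7 : ‖(e * psi m z ^ 3 : ℂ)‖ ≤ |e| * (1 + m) ^ 3 * ‖z‖ ^ 2 := by
    rw [norm_mul, norm_pow, Complex.norm_real, Real.norm_eq_abs]
    calc |e| * ‖psi m z‖ ^ 3 ≤ |e| * ((1 + m) * ‖z‖) ^ 3 := by gcongr
      _ = |e| * (1 + m) ^ 3 * (‖z‖ * ‖z‖ ^ 2) := by ring
      _ ≤ |e| * (1 + m) ^ 3 * (1 * ‖z‖ ^ 2) := by gcongr
      _ = _ := by ring
  calc _ ≤ c * ‖z‖ ^ 2 + |e| * (1 + m) ^ 3 * ‖z‖ ^ 2 := add_le_add h6 h7
    _ = _ := by ring

end

end Pool.Agent.Q72.Ext
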