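import Pool.Agent.Q72.Ext.Sol2

set_option autoImplicit false

open MeasureTheory Filter Topology Set Complex

namespace Pool.Agent.Q72.Ext

theorem exists_par (lam : ℝ) (h1 : 1 ≤ lam) (h2 : lam < 2) :
    ∃ x0 a0 m κ δ : ℝ, 0 < δ ∧ IsGreatest (admissible lam) a0 ∧
      ∀ e : ℝ, |e| ≤ δ → Par lam x0 a0 (a0 / (2 - lam)) m e κ := by
  obtain ⟨x0, a0, D⟩ := exists_dat lam h1 h2
  obtain ⟨κ, hκ, hin⟩ := D.ineq
  have hx := D.x0pos
  have hx1 := D.x0lt
  have ha := D.apos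
  have hs : 0 < 1 - x0 ^ 2 := by nlinarith
  set m : ℝ := x0 / (1 - x0 ^ 2) with hm
  have hm0 : 0 < m := by positivity
  have hl : 0 < 2 - lam := by linarith
  set c : ℝ := a0 / (2 - lam) with hc
  have hc0 : 0 < c := by positivity
  set A1 : ℝ := 3 * (4 * (1 + m) + 4 * (c + m) + 2) ^ 2 with hA1
  have hA10 : 0 < A1 := by positivity
  set A2 : ℝ := 2 * lam * (1 + m) + |6 * m - 3 * lam * m + 3 * a0| with hA2
  have hA20 : 0 ≤ A2 := by positivity
  set K : ℝ := κ * (1 - x0 ^ 2) ^ 2 with hK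
  have hK0 : 0 < K := by positivity
  refine ⟨x0, a0, m, κ, min (1 / (2 * A1)) (K / (2 * A2 + 1)), ?_, D.greatest, ?_⟩
  · exact lt_min (by positivity) (by positivity)
  intro e he
  have he1 := he.trans (min_le_left _ _)
  have he2 := he.trans (min_le_right _ _)
  refine ⟨D, ?_, ?_, hκ, hin, ?_, ?_⟩
  · field_simp
  · rw [hm]; field_simp
  · calc |e| * A1 ≤ 1 / (2 * A1) * A1 := by gcongr
      _ = 1 / 2 := by field_simp
  · rw [le_div_iff₀ (by positivity)] at he2
    have h3 := abs_nonneg e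
    calc 2 * |e| * A2 ≤ |e| * (2 * A2 + 1) := by nlinarith
      _ ≤ K := he2

theorem F_eq (lam a0 m : ℝ) (z : E) : F lam a0 z = G (a0 / (2 - lam)) m 0 z := by
  apply ext_E
  · rw [F, G, toLp_zero, toLp_zero]
    simp
  · rfl

theorem main (lam : ℝ) (h1 : 1 ≤ lam) (h2 : lam < 2) :
    ∃ a0 : ℝ, IsGreatest (admissible lam) a0 ∧
      (fun z : B => F lam a0 z) ∈ S0 lam ∧
      (fun z : B => F lam a0 z) ∉ Set.extremePoints ℝ (S0 lam) := by
  obtain ⟨x0, a0, m, κ, δ, hδ, hgr, hpar⟩ := exists_par lam h1 h2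
  set c : ℝ := a0 / (2 - lam) with hc
  have hmem : ∀ e : ℝ, |e| ≤ δ → (fun z : B => G c m e z) ∈ S0 lam := fun e he =>
    ⟨G c m e, hasParam (hpar e he), fun _ => rfl⟩
  have hF : (fun z : B => F lam a0 z) = fun z : B => G c m 0 z := by
    funext z
    exact F_eq lam a0 m z
  refine ⟨a0, hgr, ?_, ?_⟩
  · rw [hF]
    exact hmem 0 (by rw [abs_zero]; exact hδ.le)
  · intro hex
    rw [mem_extremePoints] at hex
    have h3 := hex.2 _ (hmem δ (by rw [abs_of_pos hδ])) _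
      (hmem (-δ) (by rw [abs_neg, abs_of_pos hδ])) ?_
    · have h4 := h3.1
      set z0 : E := WithLp.toLp 2 ![1 / 2, 0] with hz0
      have hz0B : z0 ∈ B := by
        rw [mem_B]
        refine lt_of_le_of_lt (norm_le_add _) ?_
        rw [hz0, toLp_zero, toLp_one, norm_zero]
        norm_num
      have h5 := congrFun h4 ⟨z0, hz0B⟩
      have h6 : (G c m δ z0) 0 = (F lam a0 z0) 0 := congrArg (fun w : E => w 0) h5
      rw [G, F, toLp_zero, toLp_zero] at h6
      unfold psi at h6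
      rw [hz0, toLp_zero, toLp_one] at h6
      have h7 : (δ : ℂ) = 0 := by
        have h8 : ((1:ℂ) / 2 + c * 0 ^ 2 + δ * (1 / 2 - m * 0 ^ 2) ^ 3) -
          (1 / 2 + ((a0 / (2 - lam) : ℝ) : ℂ) * 0 ^ 2) = 0 := by
          rw [h6, toLp_zero, sub_self]
        linear_combination 8 * h8
      exact hδ.ne' (by exact_mod_cast h7)
    · refine ⟨1 / 2, 1 / 2, by norm_num, by norm_num, by norm_num, ?_⟩
      funext z
      change (1 / 2 : ℝ) • G c m δ z + (1 / 2 : ℝ) • G c m (-δ) z = F lam a0 z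
      apply ext_E
      · change (1 / 2 : ℝ) • (G c m δ z) 0 + (1 / 2 : ℝ) • (G c m (-δ) z) 0 = (F lam a0 z) 0
        rw [G, G, F, toLp_zero, toLp_zero, toLp_zero, Complex.real_smul, Complex.real_smul, ← hc]
        push_cast
        ring
      · change (1 / 2 : ℝ) • (G c m δ z) 1 + (1 / 2 : ℝ) • (G c m (-δ) z) 1 = (F lam a0 z) 1
        rw [G, G, F, toLp_one, toLp_one, toLp_one, Complex.real_smul]
        push_cast
        ring

end Pool.Agent.Q72.Ext
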