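import Pool.Agent.Q72.Ext.Flow

set_option autoImplicit false

open MeasureTheory Filter Topology Set Complex

namespace Pool.Agent.Q72.Ext

section
variable {lam x0 a0 c m e κ : ℝ}

/-- the right hand side -/
noncomputable def W (lam c m e : ℝ) (z : E) (t : ℝ) : ℂ :=
  (Real.exp (-(lam * t)) : ℂ) * (G c m e z) 0 - (c + m) * ((Real.exp (-2 * t) : ℂ) * z 1 ^ 2)

/-- the solution -/
noncomputable def V (lam c m e : ℝ) (g : ℂ → ℂ) (z : E) (t : ℝ) : E :=
  WithLp.toLp 2 ![g (W lam c m e z t) + m * ((Real.exp (-2 * t) : ℂ) * z 1 ^ 2),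
    (Real.exp (-t) : ℂ) * z 1]

/-- the radius -/
noncomputable def RR (c m : ℝ) : ℝ := 4 * (1 + m) + 4 * (c + m) + 2

theorem G_eq_q (z : E) : (G c m e z) 0 = q e (psi m z) + (c + m) * z 1 ^ 2 := by
  unfold G q
  rw [toLp_zero]
  unfold psi
  ring

theorem norm_G0 (P : Par lam x0 a0 c m e κ) {z : E} (hz : z ∈ B) :
    ‖(G c m e z) 0‖ ≤ 2 * (1 + m) + (c + m) := by
  have hm := P.mpos
  have hc := P.cpos
  rw [G_eq_q]
  refine (norm_add_le _ _).trans ?_
  have h1 := norm_psi P hz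
  have h2 := q_upper (R := RR c m) P.e1 (u := psi m z) (h1.trans (by unfold RR; linarith))
  have h3 : ‖((c + m) * z 1 ^ 2 : ℂ)‖ ≤ c + m := by
    have hz' := mem_B.1 hz
    have h4 := (norm_c1 z).trans hz'.le
    rw [norm_mul, norm_pow]
    have h5 : ‖(c + m : ℂ)‖ = c + m := by
      rw [← Complex.ofReal_add, Complex.norm_real, Real.norm_of_nonneg (by linarith)]
    rw [h5]
    exact mul_le_of_le_one_right (by linarith) (pow_le_one₀ (norm_nonneg _) h4)
  linarith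

theorem norm_W (P : Par lam x0 a0 c m e κ) {z : E} (hz : z ∈ B) {t : ℝ} (ht : 0 ≤ t) :
    ‖W lam c m e z t‖ ≤ Real.exp (-(lam * t)) * (2 * (1 + m) + 2 * (c + m)) := by
  have hm := P.mpos
  have hc := P.cpos
  unfold W
  refine (norm_sub_le _ _).trans ?_
  rw [norm_mul, norm_mul, norm_mul, norm_pow, Complex.norm_real, Complex.norm_real,
    Real.norm_of_nonneg (Real.exp_nonneg _), Real.norm_of_nonneg (Real.exp_nonneg _)]
  have h5 : ‖(c + m : ℂ)‖ = c + m := by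
    rw [← Complex.ofReal_add, Complex.norm_real, Real.norm_of_nonneg (by linarith)]
  rw [h5]
  have hz' := mem_B.1 hz
  have h4 := (norm_c1 z).trans hz'.le
  have h6 : ‖z 1‖ ^ 2 ≤ 1 := pow_le_one₀ (norm_nonneg _) h4
  have h7 : Real.exp (-2 * t) ≤ Real.exp (-(lam * t)) := by
    apply Real.exp_le_exp.2
    have := P.dat.h2
    nlinarith
  have h8 : Real.exp (-2 * t) * ‖z 1‖ ^ 2 ≤ Real.exp (-(lam * t)) := by
    calc _ ≤ Real.exp (-(lam * t)) * 1 := by gcongr
      _ = _ := mul_one _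
  have h9 := norm_G0 P hz
  calc Real.exp (-(lam * t)) * ‖(G c m e z) 0‖ + (c + m) * (Real.exp (-2 * t) * ‖z 1‖ ^ 2)
      ≤ Real.exp (-(lam * t)) * (2 * (1 + m) + (c + m)) + (c + m) * Real.exp (-(lam * t)) := by
        gcongr
    _ = _ := by ring

theorem norm_W_lt (P : Par lam x0 a0 c m e κ) {z : E} (hz : z ∈ B) {t : ℝ} (ht : 0 ≤ t) :
    ‖W lam c m e z t‖ < RR c m / 2 := by
  have hm := P.mpos
  have hc := P.cpos
  have h1 := norm_W P hz ht
  have h2 : Real.exp (-(lam * t)) ≤ 1 := by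
    apply Real.exp_le_one_iff.2
    have := P.dat.h1
    nlinarith
  have h3 : Real.exp (-(lam * t)) * (2 * (1 + m) + 2 * (c + m)) ≤ 2 * (1 + m) + 2 * (c + m) :=
    mul_le_of_le_one_left (by linarith) h2
  unfold RR
  linarith

theorem hasDeriv_exp (a : ℝ) (t : ℝ) :
    HasDerivAt (fun s : ℝ => (Real.exp (a * s) : ℂ)) (a * (Real.exp (a * t) : ℂ)) t := by
  have h1 : HasDerivAt (fun s : ℝ => Real.exp (a * s)) (Real.exp (a * t) * a) t := by
    have := ((hasDerivAt_id' t).const_mul a).exp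
    simpa using this
  refine h1.ofReal_comp.congr_deriv ?_
  push_cast
  ring

theorem hasDeriv_W (z : E) (t : ℝ) :
    HasDerivAt (W lam c m e z) (-lam * ((Real.exp (-(lam * t)) : ℂ) * (G c m e z) 0) +
      2 * (c + m) * ((Real.exp (-2 * t) : ℂ) * z 1 ^ 2)) t := by
  unfold W
  have h1 := (hasDeriv_exp (-lam) t).mul_const ((G c m e z) 0)
  have h2 := ((hasDeriv_exp (-2) t).mul_const (z 1 ^ 2)).const_mul (c + m : ℂ)
  have h3 := h1.fun_sub h2
  simp only [neg_mul] at h3 ⊢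
  refine h3.congr_deriv ?_
  push_cast
  ring

theorem hasDerivAt_E {f : ℝ → E} {f' : E} {t : ℝ} (h0 : HasDerivAt (fun s => f s 0) (f' 0) t)
    (h1 : HasDerivAt (fun s => f s 1) (f' 1) t) : HasDerivAt f f' t := by
  set e0 : E := WithLp.toLp 2 ![1, 0] with he0
  set e1 : E := WithLp.toLp 2 ![0, 1] with he1
  have hdec : ∀ w : E, w = w 0 • e0 + w 1 • e1 := by
    intro w
    apply ext_E
    · simp [he0, he1]
    · simp [he0, he1]
  have h2 := (h0.smul_const e0).fun_add (h1.smul_const e1)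
  have h3 : f = fun s => f s 0 • e0 + f s 1 • e1 := by
    funext s
    exact hdec (f s)
  rw [h3, hdec f']
  exact h2

/-- properties of the inverse -/
structure IsInv (e R : ℝ) (g : ℂ → ℂ) : Prop where
  p1 : ∀ w, ‖w‖ ≤ R / 2 → ‖g w‖ ≤ 2 * ‖w‖ ∧ ‖g w‖ ≤ R ∧ q e (g w) = w
  p2 : ∀ u, ‖u‖ ≤ R → ‖q e u‖ ≤ R / 2 → g (q e u) = u
  p3 : ∀ w, ‖w‖ < R / 2 → HasDerivAt g ((1 + 3 * e * g w ^ 2)⁻¹) w

variable {g : ℂ → ℂ}

theorem psi_V (z : E) (t : ℝ) : psi m (V lam c m e g z t) = g (W lam c m e z t) := by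
  unfold psi V
  rw [toLp_zero, toLp_one]
  have : (Real.exp (-2 * t) : ℂ) = (Real.exp (-t) : ℂ) ^ 2 := by
    rw [← Complex.ofReal_pow, ← Real.exp_nat_mul]
    congr 2
    push_cast
    ring
  rw [this]
  ring

theorem V_deriv (P : Par lam x0 a0 c m e κ) (hg : IsInv e (RR c m) g) {z : E} (hz : z ∈ B)
    {t : ℝ} (ht : 0 ≤ t) (hV : V lam c m e g z t ∈ B) :
    HasDerivAt (V lam c m e g z) (-hf lam a0 m e (V lam c m e g z t)) t := by
  have hW := norm_W_lt P hz ht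
  have hexp : (Real.exp (-2 * t) : ℂ) = (Real.exp (-t) : ℂ) ^ 2 := by
    rw [← Complex.ofReal_pow, ← Real.exp_nat_mul]
    congr 2
    push_cast
    ring
  have hden : (1 + 3 * e * g (W lam c m e z t) ^ 2 : ℂ) ≠ 0 := by
    have := den_ne P hV
    rwa [psi_V] at this
  have k1 := HasDerivAt.comp t (hg.p3 _ hW) (hasDeriv_W (lam := lam) (c := c) (m := m) (e := e) z t)
  have k2 := (((hasDeriv_exp (-2) t).mul_const (z 1 ^ 2)).const_mul (m : ℂ))
  have k3 := k1.add k2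
  have h4 := (hasDeriv_exp (-1) t).mul_const (z 1)
  have hW' : (Real.exp (-(lam * t)) : ℂ) * (G c m e z) 0 =
      q e (g (W lam c m e z t)) + (c + m) * ((Real.exp (-2 * t) : ℂ) * z 1 ^ 2) := by
    rw [(hg.p1 _ hW.le).2.2]
    unfold W; ring
  apply hasDerivAt_E
  · change HasDerivAt (fun s => g (W lam c m e z s) + m * ((Real.exp (-2 * s) : ℂ) * z 1 ^ 2)) _ t
    refine HasDerivAt.congr_deriv k3 ?_
    have hneg : (-hf lam a0 m e (V lam c m e g z t)) 0 = - h1 lam a0 m e (V lam c m e g z t) := rfl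
    rw [hneg]
    unfold h1
    rw [psi_V]
    have hV0 : (V lam c m e g z t) 0 = g (W lam c m e z t) +
      m * ((Real.exp (-2 * t) : ℂ) * z 1 ^ 2) := rfl
    have hV1 : (V lam c m e g z t) 1 ^ 2 = (Real.exp (-2 * t) : ℂ) * z 1 ^ 2 := by
      rw [hexp]
      change ((Real.exp (-t) : ℂ) * z 1) ^ 2 = _
      ring
    rw [hV0, hV1, hW']
    have hcc : ((2 - lam) * c : ℂ) = a0 := by exact_mod_cast P.hc
    have hmul : (m : ℂ) * (((-2 : ℝ) : ℂ) * (Real.exp (-2 * t) : ℂ) * z 1 ^ 2) =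
        -2 * m * ((Real.exp (-2 * t) : ℂ) * z 1 ^ 2) := by push_cast; ring
    rw [hmul]
    generalize g (W lam c m e z t) = u at hden ⊢
    generalize ((Real.exp (-2 * t) : ℂ) * z 1 ^ 2) = s
    unfold q
    rw [← hcc]
    field_simp
    ring
  · change HasDerivAt (fun s => (Real.exp (-s) : ℂ) * z 1) _ t
    have hneg : (-hf lam a0 m e (V lam c m e g z t)) 1 = - ((Real.exp (-t) : ℂ) * z 1) := rfl
    rw [hneg]
    simp only [neg_mul, one_mul] at h4
    refine HasDerivAt.congr_deriv h4 ?_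
    push_cast
    ring

end

end Pool.Agent.Q72.Ext
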