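import Pool.Agent.Q72.Ext.Sol

set_option autoImplicit false

open MeasureTheory Filter Topology Set Complex

namespace Pool.Agent.Q72.Ext

section
variable {lam x0 a0 c m e κ : ℝ} {g : ℂ → ℂ}

theorem V_init (P : Par lam x0 a0 c m e κ) (hg : IsInv e (RR c m) g) {z : E} (hz : z ∈ B) :
    V lam c m e g z 0 = z := by
  have hm := P.mpos
  have hc := P.cpos
  have h1 : W lam c m e z 0 = q e (psi m z) := by
    unfold W
    rw [G_eq_q]
    simp
  have h2 := norm_W_lt P hz (le_refl (0 : ℝ))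
  rw [h1] at h2
  have h3 := hg.p2 (psi m z) ((norm_psi P hz).trans (by unfold RR; linarith)) h2.le
  unfold V
  rw [h1, h3]
  apply ext_E
  · rw [toLp_zero]
    unfold psi
    simp
  · rw [toLp_one]
    simp

theorem hasDeriv_normsq {f : ℝ → E} {f' : E} {t : ℝ} (h : HasDerivAt f f' t) :
    HasDerivAt (fun s => ‖f s‖ ^ 2) (2 * (inner ℂ (f t) f').re) t := by
  have h1 := h.norm_sq
  refine h1.congr_deriv ?_
  congr 1

theorem V_diff (P : Par lam x0 a0 c m e κ) (hg : IsInv e (RR c m) g) {z : E} (hz : z ∈ B)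
    {t : ℝ} (ht : 0 ≤ t) : DifferentiableAt ℝ (V lam c m e g z) t := by
  have hW := norm_W_lt P hz ht
  have k1 := HasDerivAt.comp t (hg.p3 _ hW) (hasDeriv_W (lam := lam) (c := c) (m := m) (e := e) z t)
  have k2 := (((hasDeriv_exp (-2) t).mul_const (z 1 ^ 2)).const_mul (m : ℂ))
  have k3 := k1.add k2
  have k4 := (hasDeriv_exp (-1) t).mul_const (z 1)
  simp only [neg_mul, one_mul] at k4
  have := hasDerivAt_E (f := V lam c m e g z) (f' := WithLp.toLp 2 ![_, _]) k3 k4
  exact this.differentiableAt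

theorem V_mem (P : Par lam x0 a0 c m e κ) (hg : IsInv e (RR c m) g) {z : E} (hz : z ∈ B)
    {t : ℝ} (ht : 0 ≤ t) : V lam c m e g z t ∈ B := by
  have hz' := mem_B.1 hz
  set r : ℝ := (1 + ‖z‖) / 2 with hr
  have hr0 : 0 < r := by have := norm_nonneg z; rw [hr]; linarith
  have hr1 : r < 1 := by rw [hr]; linarith
  have hzr : ‖z‖ ≤ r := by rw [hr]; linarith
  have hd : ∀ s, 0 ≤ s → DifferentiableAt ℝ (fun s => ‖V lam c m e g z s‖ ^ 2) s := fun s hs =>
    (hasDeriv_normsq (V_diff P hg hz hs).hasDerivAt).differentiableAt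
  have key := image_le_of_deriv_right_lt_deriv_boundary (a := 0) (b := t)
    (f := fun s => ‖V lam c m e g z s‖ ^ 2) (f' := deriv fun s => ‖V lam c m e g z s‖ ^ 2)
    (B := fun _ => r ^ 2) (B' := fun _ => 0)
    (fun s hs => (hd s hs.1).continuousAt.continuousWithinAt)
    (fun s hs => (hd s hs.1).hasDerivAt.hasDerivWithinAt)
    (by
      show ‖V lam c m e g z 0‖ ^ 2 ≤ r ^ 2
      rw [V_init P hg hz]
      gcongr)
    (fun s => hasDerivAt_const s _)
    (by
      intro s hs heq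
      have h1 : ‖V lam c m e g z s‖ = r := by
        have h2 : ‖V lam c m e g z s‖ ^ 2 = r ^ 2 := heq
        exact (sq_eq_sq₀ (norm_nonneg _) hr0.le).1 h2
      have h2 : V lam c m e g z s ∈ B := by rw [mem_B, h1]; exact hr1
      have h3 : V lam c m e g z s ≠ 0 := by
        intro h0
        rw [h0, norm_zero] at h1
        linarith
      have h4 := hasDeriv_normsq (V_deriv P hg hz hs.1 h2)
      rw [h4.deriv, inner_neg_right, Complex.neg_re]
      have h5 := hf_pos P h2 h3
      linarith)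
  have h1 : ‖V lam c m e g z t‖ ^ 2 ≤ r ^ 2 := key ⟨ht, le_rfl⟩
  rw [mem_B]
  have h2 : ‖V lam c m e g z t‖ ≤ r := le_of_sq_le_sq h1 hr0.le
  linarith

theorem V_ode (P : Par lam x0 a0 c m e κ) (hg : IsInv e (RR c m) g) {z : E} (hz : z ∈ B)
    {t : ℝ} (ht : 0 ≤ t) :
    HasDerivAt (V lam c m e g z) (-hf lam a0 m e (V lam c m e g z t)) t :=
  V_deriv P hg hz ht (V_mem P hg hz ht)

theorem hf_bound (P : Par lam x0 a0 c m e κ) : ∃ C : ℝ, ∀ z ∈ B, ‖hf lam a0 m e z‖ ≤ C := by
  have hm := P.mpos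
  have ha := P.dat.apos
  have hl := P.dat.h1
  have hκ := P.hκ
  refine ⟨(κ * (1 - x0 ^ 2) ^ 2 * (1 + m) ^ 2 + (lam + a0)) + 1, ?_⟩
  intro z hz
  refine (norm_le_add _).trans ?_
  have hz' := mem_B.1 hz
  have h0 := (norm_c0 z).trans hz'.le
  have h1' := (norm_c1 z).trans hz'.le
  have e1 : (hf lam a0 m e z) 1 = z 1 := rfl
  have e0 : (hf lam a0 m e z) 0 = (h1 lam a0 m e z - (lam * z 0 - a0 * z 1 ^ 2)) +
      (lam * z 0 - a0 * z 1 ^ 2) := by
    rw [hf, toLp_zero]; ring
  rw [e1, e0]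
  apply add_le_add _ h1'
  refine (norm_add_le _ _).trans ?_
  apply add_le_add
  · refine (norm_h1_sub P hz).trans ?_
    have := norm_psi P hz
    gcongr
  · refine (norm_sub_le _ _).trans ?_
    rw [norm_mul, norm_mul, norm_pow, Complex.norm_real, Complex.norm_real,
      Real.norm_of_nonneg (by linarith : 0 ≤ lam), Real.norm_of_nonneg ha.le]
    have h6 : ‖z 1‖ ^ 2 ≤ 1 := pow_le_one₀ (norm_nonneg _) h1'
    apply add_le_add
    · exact mul_le_of_le_one_right (by linarith) h0
    · exact mul_le_of_le_one_right ha.le h6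

theorem V_ac (P : Par lam x0 a0 c m e κ) (hg : IsInv e (RR c m) g) {z : E} (hz : z ∈ B)
    {T : ℝ} (hT : 0 ≤ T) : AbsolutelyContinuousOnInterval (V lam c m e g z) 0 T := by
  obtain ⟨C, hC⟩ := hf_bound P
  have hC0 : 0 ≤ C := (norm_nonneg _).trans (hC z hz)
  have hlip : LipschitzOnWith ⟨C, hC0⟩ (V lam c m e g z) (uIcc 0 T) := by
    rw [uIcc_of_le hT]
    apply Convex.lipschitzOnWith_of_nnnorm_hasDerivWithin_le (convex_Icc 0 T)
      (fun s hs => (V_ode P hg hz hs.1).hasDerivWithinAt)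
    intro s hs
    rw [nnnorm_neg]
    exact hC _ (V_mem P hg hz hs.1)
  exact hlip.absolutelyContinuousOnInterval

theorem V_sol (P : Par lam x0 a0 c m e κ) (hg : IsInv e (RR c m) g) :
    IsSolution (fun z _ => hf lam a0 m e z) (V lam c m e g) where
  init := fun z hz => V_init P hg hz
  mem := fun z hz t ht => V_mem P hg hz ht
  ac := fun z hz T hT => V_ac P hg hz hT
  ode := by
    intro z hz
    filter_upwards [ae_restrict_mem measurableSet_Ioi] with t ht
    exact V_ode P hg hz (le_of_lt ht)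

theorem herglotz (P : Par lam x0 a0 c m e κ) : IsHerglotz lam (fun z _ => hf lam a0 m e z) where
  mem := Eventually.of_forall fun _ => isNA P
  meas := fun _ _ => measurable_const

theorem V_lim (P : Par lam x0 a0 c m e κ) (hg : IsInv e (RR c m) g) :
    TendstoLocallyUniformlyOn (fun t z => expA lam t (V lam c m e g z t)) (G c m e) atTop B := by
  have hm := P.mpos
  have hc := P.cpos
  have hl := P.dat.h1
  have hl2 := P.dat.h2
  apply TendstoUniformlyOn.tendstoLocallyUniformlyOn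
  rw [Metric.tendstoUniformlyOn_iff]
  intro ε hε
  set K : ℝ := 2 * (1 + m) + 2 * (c + m) with hK
  have hK0 : 0 < K := by rw [hK]; linarith
  have hlim : Tendsto (fun t : ℝ => c * Real.exp (-(2 - lam) * t) +
      |e| * (8 * K ^ 3) * Real.exp (-2 * lam * t)) atTop (𝓝 (c * 0 + |e| * (8 * K ^ 3) * 0)) := by
    apply Tendsto.add
    · apply Tendsto.const_mul
      apply Real.tendsto_exp_atBot.comp
      exact tendsto_id.const_mul_atTop_of_neg (by linarith)
    · apply Tendsto.const_mul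
      apply Real.tendsto_exp_atBot.comp
      exact tendsto_id.const_mul_atTop_of_neg (by linarith)
  rw [mul_zero, mul_zero, add_zero] at hlim
  filter_upwards [hlim.eventually_lt_const hε, eventually_ge_atTop 0] with t ht ht0 z hz
  refine lt_of_le_of_lt ?_ ht
  have hW := norm_W P hz ht0
  have hWlt := norm_W_lt P hz ht0
  obtain ⟨hg1, hg2, hg3⟩ := hg.p1 _ hWlt.le
  rw [dist_eq_norm]
  refine (norm_le_add _).trans ?_
  have e1 : (G c m e z - expA lam t (V lam c m e g z t)) 1 = 0 := by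
    rw [PiLp.sub_apply]
    change z 1 - (Real.exp t : ℂ) * ((Real.exp (-t) : ℂ) * z 1) = 0
    rw [← mul_assoc, ← Complex.ofReal_mul, ← Real.exp_add]
    simp
  have hee : (Real.exp (lam * t) : ℂ) * (Real.exp (-(lam * t)) : ℂ) = 1 := by
    rw [← Complex.ofReal_mul, ← Real.exp_add]
    simp
  have e0 : (G c m e z - expA lam t (V lam c m e g z t)) 0 =
      (c : ℂ) * ((Real.exp (lam * t) : ℂ) * (Real.exp (-2 * t) : ℂ)) * z 1 ^ 2 +
        e * ((Real.exp (lam * t) : ℂ) * g (W lam c m e z t) ^ 3) := by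
    rw [PiLp.sub_apply]
    change (G c m e z) 0 - (Real.exp (lam * t) : ℂ) * (g (W lam c m e z t) +
      m * ((Real.exp (-2 * t) : ℂ) * z 1 ^ 2)) = _
    have h1 : g (W lam c m e z t) + e * g (W lam c m e z t) ^ 3 =
        (Real.exp (-(lam * t)) : ℂ) * (G c m e z) 0 -
          (c + m) * ((Real.exp (-2 * t) : ℂ) * z 1 ^ 2) := hg3
    have h2 : g (W lam c m e z t) = (Real.exp (-(lam * t)) : ℂ) * (G c m e z) 0 -
          (c + m) * ((Real.exp (-2 * t) : ℂ) * z 1 ^ 2) - e * g (W lam c m e z t) ^ 3 := by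
      rw [← h1]; ring
    have h3 : (Real.exp (lam * t) : ℂ) * g (W lam c m e z t) = (G c m e z) 0 -
        (Real.exp (lam * t) : ℂ) * ((c + m) * ((Real.exp (-2 * t) : ℂ) * z 1 ^ 2)) -
          (Real.exp (lam * t) : ℂ) * (e * g (W lam c m e z t) ^ 3) := by
      conv_lhs => rw [h2]
      rw [mul_sub, mul_sub, ← mul_assoc, hee, one_mul]
    rw [mul_add, h3]
    ring
  rw [e0, e1, norm_zero, add_zero]
  refine (norm_add_le _ _).trans ?_
  apply add_le_add
  · rw [norm_mul, norm_mul, norm_pow, Complex.norm_real, Real.norm_of_nonneg hc.le,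
      ← Complex.ofReal_mul, Complex.norm_real, ← Real.exp_add,
      Real.norm_of_nonneg (Real.exp_nonneg _)]
    have hz' := mem_B.1 hz
    have h1' := (norm_c1 z).trans hz'.le
    have h6 : ‖z 1‖ ^ 2 ≤ 1 := pow_le_one₀ (norm_nonneg _) h1'
    have h7 : lam * t + -2 * t = -(2 - lam) * t := by ring
    rw [h7]
    exact mul_le_of_le_one_right (by positivity) h6
  · rw [norm_mul, norm_mul, norm_pow, Complex.norm_real, Complex.norm_real,
      Real.norm_of_nonneg (Real.exp_nonneg _), Real.norm_eq_abs]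
    have h8 : ‖g (W lam c m e z t)‖ ≤ 2 * (Real.exp (-(lam * t)) * K) := hg1.trans (by linarith)
    have h9 : ‖g (W lam c m e z t)‖ ^ 3 ≤ (2 * (Real.exp (-(lam * t)) * K)) ^ 3 := by gcongr
    have h10 : Real.exp (lam * t) * (2 * (Real.exp (-(lam * t)) * K)) ^ 3 =
        8 * K ^ 3 * Real.exp (-2 * lam * t) := by
      have h11 : Real.exp (-2 * lam * t) = Real.exp (lam * t) * Real.exp (-(lam * t)) ^ 3 := by
        rw [← Real.exp_nat_mul, ← Real.exp_add]
        congr 1
        push_cast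
        ring
      rw [h11]; ring
    calc |e| * (Real.exp (lam * t) * ‖g (W lam c m e z t)‖ ^ 3)
        ≤ |e| * (Real.exp (lam * t) * (2 * (Real.exp (-(lam * t)) * K)) ^ 3) := by gcongr
      _ = |e| * (8 * K ^ 3 * Real.exp (-2 * lam * t)) := by rw [h10]
      _ = _ := by ring

theorem hasParam (P : Par lam x0 a0 c m e κ) : HasParam lam (G c m e) := by
  have hm := P.mpos
  have hc := P.cpos
  obtain ⟨g, hg1, hg2, hg3⟩ := exists_inv (e := e) (R := RR c m) (by unfold RR; linarith) P.e1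
  have hg : IsInv e (RR c m) g := ⟨hg1, hg2, hg3⟩
  exact ⟨G_diff, G_zero, G_deriv P, _, _, herglotz P, V_sol P hg, V_lim P hg⟩

end

end Pool.Agent.Q72.Ext
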